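import Pool.Agent.Helper85.PCP.Stmts

/-!
# Module FIN: the Post correspondence problem with four pairs is undecidable
-/

namespace PCP4

theorem fin_UN_ne (k Q0 q0 qh : ℕ) (tab : List (ℕ × Bool × Bool × ℕ)) (n : ℕ)
    (h : 2 ≤ mN k Q0 n) : UN k Q0 q0 qh tab n ≠ [] := by
  intro h0
  have h1 := congrArg List.length h0
  unfold UN mkU at h1
  rw [List.length_map, List.length_range, List.length_nil] at h1
  rcases Nat.mul_eq_zero.mp h1 with h2 | h2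
  · omega
  · unfold LN at h2
    omega

theorem fin_iff (hB : ST_B) (hC : ST_C) (hD : ST_D) (hG : ST_GOOD) (hDOK : ST_DOK)
    (hDDW : ST_DDW) (hPB : ST_PB) (hPF : ST_PF) (k Q0 q0 qh : ℕ)
    (tab : List (ℕ × Bool × Bool × ℕ)) (hA : AOk k Q0 q0 qh tab) (n : ℕ) :
    AHalt k Q0 q0 qh tab (q0, n, 0) ↔ Pos (inst4 (mN k Q0 n) (UN k Q0 q0 qh tab n)) := by
  have hok := hDOK k Q0 q0 qh tab hA n
  have hgood := hG _ _ _ _ _ _ _ hok
  have hm : 2 ≤ mN k Q0 n := hgood.hm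
  have hne := fin_UN_ne k Q0 q0 qh tab n hm
  have h1 : Pos (inst4 (mN k Q0 n) (UN k Q0 q0 qh tab n)) ↔
      TEq (mN k Q0 n) (UN k Q0 q0 qh tab n) := ⟨hPF _ _ hm hne, hPB _ _ hm hne⟩
  have h2 : TEq (mN k Q0 n) (UN k Q0 q0 qh tab n) ↔
      IHalt (mN k Q0 n) (trN k Q0 q0 qh tab n) (0, (trN k Q0 q0 qh tab n 0).tail) :=
    hB _ _ _ hgood
  obtain ⟨c1, c2⟩ := hC _ _ _ _ _ _ _ hok
  rw [hDDW k Q0 n hA.hk] at c1 c2
  obtain ⟨d1, d2⟩ := hD k Q0 q0 qh tab hA n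
  rw [h1, h2]
  constructor
  · intro h
    exact c1 (d1 h)
  · intro h
    by_contra hn
    exact c2 (d2 hn) h

theorem st_FIN (hB : ST_B) (hC : ST_C) (hD : ST_D) (hG : ST_GOOD) (hDOK : ST_DOK)
    (hDDW : ST_DDW) (hPB : ST_PB) (hPF : ST_PF) (hAM : ST_AM) (hCOMP : ST_COMP)
    (hLIFT : ST_LIFT) : ST_FIN := by
  refine hLIFT ?_
  intro hcomp
  obtain ⟨k, Q0, q0, qh, tab, hA, hund⟩ := hAM
  refine hund ?_
  refine ComputablePred.computable_of_manyOneReducible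
    (q := fun I : Inst 4 ℕ => Pos I) ?_ hcomp
  exact ⟨fun n => inst4 (mN k Q0 n) (UN k Q0 q0 qh tab n), hCOMP k Q0 q0 qh tab, fun n =>
    fin_iff hB hC hD hG hDOK hDDW hPB hPF k Q0 q0 qh tab hA n⟩

end PCP4
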