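import Pool.Agent.Helper85.PCP.Stmts

/-!
# Module VSIM: one step of the V-tag system
-/

namespace PCP4

theorem vsim_letters_append (A : ℕ) (W W' : List (Option ℕ)) :
    letters A (W ++ W') = letters A W ++ letters A W' := by
  unfold letters
  rw [List.flatMap_append]

theorem vsim_letters_cons (A : ℕ) (o : Option ℕ) (W : List (Option ℕ)) :
    letters A (o :: W) = lt1 A o ++ letters A W := rfl

theorem vsim_letters_rep (A n : ℕ) :
    letters A (List.replicate n none) = List.replicate n true := by
  induction n with
  | zero => rfl
  | succ n ih =>
    rw [List.replicate_succ, List.replicate_succ, vsim_letters_cons, ih]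
    rfl

theorem vsim_red_rep (n : ℕ) : (List.replicate n (none : Option ℕ)).reduceOption = [] := by
  induction n with
  | zero => rfl
  | succ n ih => rw [List.replicate_succ, List.reduceOption_cons_of_none, ih]

theorem vsim_tok_append {A : ℕ} {W W' : List (Option ℕ)} (h : TokOk A W) (h' : TokOk A W') :
    TokOk A (W ++ W') := by
  intro τ hτ
  rcases List.mem_append.mp hτ with h1 | h1
  · exact h τ h1
  · exact h' τ h1

theorem vsim_tok_rep (A n : ℕ) : TokOk A (List.replicate n none) := by
  intro τ hτ
  have := List.eq_of_mem_replicate hτ
  simp at this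

/-- leading dummies -/
theorem vsim_split : ∀ W : List (Option ℕ), (∃ j, W = List.replicate j none) ∨
    ∃ j τ R, W = List.replicate j none ++ some τ :: R := by
  intro W
  induction W with
  | nil => exact Or.inl ⟨0, rfl⟩
  | cons o W ih =>
    rcases o with _ | τ
    · rcases ih with ⟨j, rfl⟩ | ⟨j, τ, R, rfl⟩
      · exact Or.inl ⟨j + 1, by rw [List.replicate_succ]⟩
      · exact Or.inr ⟨j + 1, τ, R, by rw [List.replicate_succ, List.cons_append]⟩
    · exact Or.inr ⟨0, τ, W, rfl⟩

theorem vsim_pop {m : ℕ} {tr : ℕ → List Bool} {φ L : ℕ}
    (h : ∀ Q, istep m tr (φ, true :: Q) = (φ, Q ++ List.replicate L true)) :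
    ∀ (j : ℕ) (Q : List Bool), (istep m tr)^[j] (φ, List.replicate j true ++ Q) =
      (φ, Q ++ List.replicate (j * L) true) := by
  intro j
  induction j with
  | zero => intro Q; simp
  | succ j ih =>
    intro Q
    rw [List.replicate_succ, List.cons_append, Function.iterate_succ_apply, h, List.append_assoc,
      ih, List.append_assoc, ← List.replicate_add]
    congr 3
    ring

theorem st_VSIM (h1 : ST_TOK) (h2 : ST_WACT) : ST_VSIM := by
  intro V s A P D' a b hV κ hκ W hW hWok hH
  obtain ⟨t1, t2, t3, -⟩ := h1 V s A P D' a b hV
  set m := V * nu A with hm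
  set L := 1 + (m - 1) * s with hL
  have hL1 : 1 ≤ L := Nat.le_add_right _ _
  rcases vsim_split W with ⟨j, rfl⟩ | ⟨j, τ, R, rfl⟩
  · -- only dummies
    rcases j with _ | j
    · exact absurd rfl hW
    refine ⟨1, le_rfl, κ, hκ, List.replicate (j + L) none, ?_, vsim_tok_rep _ _, ?_, ?_⟩
    · intro h
      have := congrArg List.length h
      simp at this
      omega
    · rw [vsim_letters_rep, vsim_letters_rep, Function.iterate_one, List.replicate_succ,
        t1 κ hκ, ← List.replicate_add]
    · rw [vsim_red_rep, vsim_red_rep]
      rcases κ with _ | κ <;> rfl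
  · have hτ : τ < A := hWok τ (by simp)
    have hR : TokOk A R := by
      intro x hx
      exact hWok x (by simp [hx])
    have hred : (List.replicate j none ++ some τ :: R).reduceOption = τ :: R.reduceOption := by
      rw [List.reduceOption_append, vsim_red_rep, List.nil_append,
        List.reduceOption_cons_of_some]
    rw [hred] at hH ⊢
    have hlet : letters A (List.replicate j none ++ some τ :: R) =
        List.replicate j true ++ (lt1 A (some τ) ++ letters A R) := by
      rw [vsim_letters_append, vsim_letters_rep, vsim_letters_cons]
    have hfirst : (istep m (trk V s A P D' a b))^[j]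
        (2 * A + κ * nu A, letters A (List.replicate j none ++ some τ :: R)) =
        (2 * A + κ * nu A, lt1 A (some τ) ++
          letters A (R ++ List.replicate (j * L) none)) := by
      rw [hlet, vsim_pop (t1 κ hκ), vsim_letters_append, vsim_letters_rep, List.append_assoc]
    rcases κ with _ | κ
    · -- active symbol
      have hp : P τ ≠ none := fun h => hH ⟨τ, _, rfl, h⟩
      obtain ⟨p, hp⟩ := Option.ne_none_iff_exists'.mp hp
      obtain ⟨w1, w2, w3, -, -⟩ := h2 V s A P D' a b hV τ hτ p hp
      refine ⟨nu A + 1 + j, by omega, V - 1, by omega,
        R ++ List.replicate (j * L) none ++ Wact V s A p, ?_, ?_, ?_, ?_⟩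
      · intro h
        have := congrArg List.length h
        simp [Wact] at this
      · exact vsim_tok_append (vsim_tok_append hR (vsim_tok_rep _ _)) w3
      · rw [Function.iterate_add_apply, hfirst]
        have := t3 τ hτ p hp (letters A (R ++ List.replicate (j * L) none))
        have e0 : 2 * A + 0 * nu A = 2 * A := by omega
        rw [e0, this, ← vsim_letters_append]
      · rw [List.reduceOption_append, List.reduceOption_append, vsim_red_rep, List.append_nil, w2]
        change _ = (V - 1, R.reduceOption ++ (P τ).getD [])
        rw [hp]
        rfl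
    · refine ⟨nu A + 1 + j, by omega, κ, by omega,
        R ++ List.replicate (j * L) none ++ List.replicate L none, ?_, ?_, ?_, ?_⟩
      · intro h
        have := congrArg List.length h
        simp at this
        omega
      · exact vsim_tok_append (vsim_tok_append hR (vsim_tok_rep _ _)) (vsim_tok_rep _ _)
      · rw [Function.iterate_add_apply, hfirst]
        have := t2 κ hκ τ hτ (letters A (R ++ List.replicate (j * L) none))
        rw [this, vsim_letters_append _ (R ++ _), vsim_letters_rep]
      · rw [List.reduceOption_append, List.reduceOption_append, vsim_red_rep, vsim_red_rep,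
          List.append_nil, List.append_nil]
        rfl

end PCP4
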